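import Mathlib

/-!
# Density of sets of places of a number field, and dense sets of closed points
-/

set_option autoImplicit false

open Filter NumberField IsDedekindDomain

namespace Pool.Agent.U483.KO

/-- The finite places of the number field `K`. -/
abbrev Places (K : Type) [Field K] [NumberField K] : Type := HeightOneSpectrum (𝓞 K)

/-- The number of the places in `S` of norm at most `x`. -/
noncomputable def count {K : Type} [Field K] [NumberField K] (S : Set (Places K)) (x : ℕ) : ℕ :=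
  {v : Places K | v ∈ S ∧ Ideal.absNorm v.asIdeal ≤ x}.ncard

/-- The lower density of `S` is positive. -/
def PositiveDensity {K : Type} [Field K] [NumberField K] (S : Set (Places K)) : Prop :=
  ∃ δ : ℝ, 0 < δ ∧ ∀ᶠ x : ℕ in atTop, δ * count (Set.univ : Set (Places K)) x ≤ count S x

section

variable {K : Type} [Field K] [NumberField K]

lemma finite_le (x : ℕ) : {v : Places K | Ideal.absNorm v.asIdeal ≤ x}.Finite :=
  (Ideal.finite_setOfPred_absNorm_le (S := 𝓞 K) x).preimage
    (f := fun v : Places K => v.asIdeal) fun _ _ _ _ hab => HeightOneSpectrum.ext hab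

lemma finite_count (S : Set (Places K)) (x : ℕ) :
    {v : Places K | v ∈ S ∧ Ideal.absNorm v.asIdeal ≤ x}.Finite :=
  (finite_le x).subset fun _ hv => hv.2

lemma infinite_places : Infinite (Places K) := by
  have key : ∀ p : Nat.Primes, ∃ v : Places K, ((p : ℕ) : 𝓞 K) ∈ v.asIdeal := by
    intro p
    have hp := p.2
    have hnu : ¬ IsUnit ((p : ℕ) : 𝓞 K) := by
      intro hu
      have h1 : IsUnit (Algebra.norm ℤ ((p : ℕ) : 𝓞 K)) := hu.map (Algebra.norm ℤ)
      have h2 : Algebra.norm ℤ ((p : ℕ) : 𝓞 K) = ((p : ℕ) : ℤ) ^ Module.finrank ℤ (𝓞 K) := by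
        have := Algebra.norm_algebraMap (S := 𝓞 K) ((p : ℕ) : ℤ)
        simpa using this
      rw [h2] at h1
      have h3 : Module.finrank ℤ (𝓞 K) ≠ 0 := by
        rw [RingOfIntegers.rank]
        exact Module.finrank_pos.ne'
      exact (Nat.prime_iff_prime_int.1 hp).not_isUnit ((isUnit_pow_iff h3).1 h1)
    obtain ⟨m, hm, hle⟩ := Ideal.exists_le_maximal (Ideal.span {((p : ℕ) : 𝓞 K)})
      (by rwa [Ne, Ideal.span_singleton_eq_top])
    have hpm : ((p : ℕ) : 𝓞 K) ∈ m := hle (Ideal.mem_span_singleton_self _)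
    refine ⟨⟨m, hm.isPrime, ?_⟩, hpm⟩
    intro h0
    rw [h0, Ideal.mem_bot] at hpm
    have h5 : ((p : ℕ) : 𝓞 K) ≠ 0 := by exact_mod_cast hp.ne_zero
    exact h5 hpm
  choose f hf using key
  refine Infinite.of_injective f fun p q hpq => ?_
  by_contra hne
  have hc : Nat.Coprime (p : ℕ) (q : ℕ) :=
    (Nat.coprime_primes p.2 q.2).2 fun h => hne (Subtype.ext h)
  have h1 := hf p
  have h2 := hf q
  rw [hpq] at h1
  obtain ⟨a, b, hab⟩ := Nat.isCoprime_iff_coprime.2 hc
  apply (f q).isPrime.ne_top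
  rw [Ideal.eq_top_iff_one]
  have h3 : (1 : 𝓞 K) = (a : 𝓞 K) * ((p : ℕ) : 𝓞 K) + (b : 𝓞 K) * ((q : ℕ) : 𝓞 K) := by
    have := congrArg (Int.cast : ℤ → 𝓞 K) hab.symm
    push_cast at this
    exact this
  rw [h3]
  exact add_mem (Ideal.mul_mem_left _ _ h1) (Ideal.mul_mem_left _ _ h2)

lemma count_univ_large (N : ℕ) : ∀ᶠ x : ℕ in atTop, N ≤ count (Set.univ : Set (Places K)) x := by
  have := infinite_places (K := K)
  obtain ⟨s, hs⟩ := Infinite.exists_subset_card_eq (Places K) N
  filter_upwards [Filter.eventually_ge_atTop (s.sup fun v => Ideal.absNorm v.asIdeal)] with x hx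
  rw [← hs, ← Set.ncard_coe_finset]
  refine Set.ncard_le_ncard (fun v hv => ⟨trivial, ?_⟩) (finite_count _ x)
  exact (Finset.le_sup (f := fun v : Places K => Ideal.absNorm v.asIdeal)
    (Finset.mem_coe.1 hv)).trans hx

lemma count_le_add (S T R : Set (Places K)) (h : S ⊆ T ∪ R) (x : ℕ) :
    count S x ≤ count T x + count R x := by
  refine (Set.ncard_le_ncard (t := {v : Places K | v ∈ T ∧ Ideal.absNorm v.asIdeal ≤ x} ∪
    {v : Places K | v ∈ R ∧ Ideal.absNorm v.asIdeal ≤ x}) ?_
    ((finite_count T x).union (finite_count R x))).trans (Set.ncard_union_le _ _)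
  rintro v ⟨h1, h2⟩
  rcases h h1 with h3 | h3
  · exact Or.inl ⟨h3, h2⟩
  · exact Or.inr ⟨h3, h2⟩

lemma count_finite (R : Set (Places K)) (hR : R.Finite) (x : ℕ) : count R x ≤ R.ncard :=
  Set.ncard_le_ncard (fun _ h => h.1) hR

/-- Positive density does not depend on finitely many places. -/
theorem PositiveDensity.mono {S T : Set (Places K)} (hS : PositiveDensity S) (h : (S \ T).Finite) :
    PositiveDensity T := by
  obtain ⟨δ, hδ, h1⟩ := hS
  obtain ⟨N, hN⟩ := exists_nat_ge (2 * ((S \ T).ncard : ℝ) / δ)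
  refine ⟨δ / 2, by positivity, ?_⟩
  filter_upwards [h1, count_univ_large (K := K) N] with x h2 h3
  have h4 := count_le_add S T (S \ T) (by
    intro v hv
    by_cases hT : v ∈ T
    · exact Or.inl hT
    · exact Or.inr ⟨hv, hT⟩) x
  have h5 := count_finite (S \ T) h x
  have h6 : (count S x : ℝ) ≤ count T x + (S \ T).ncard := by
    exact_mod_cast h4.trans (Nat.add_le_add_left h5 _)
  have h7 : (N : ℝ) ≤ count (Set.univ : Set (Places K)) x := by exact_mod_cast h3
  have h8 : 2 * ((S \ T).ncard : ℝ) ≤ count (Set.univ : Set (Places K)) x * δ :=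
    (div_le_iff₀ hδ).1 (hN.trans h7)
  nlinarith

/-- The filter of the sets of places of density one. -/
def densityOne (K : Type) [Field K] [NumberField K] : Filter (Places K) where
  sets := {S | ∀ ε : ℝ, 0 < ε → ∀ᶠ x : ℕ in atTop,
    (count Sᶜ x : ℝ) ≤ ε * count (Set.univ : Set (Places K)) x}
  univ_sets := by
    intro ε hε
    refine Eventually.of_forall fun x => ?_
    have h1 : count (Set.univᶜ : Set (Places K)) x = 0 := by
      have := count_finite (Set.univᶜ : Set (Places K)) (by simp) x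
      simpa using this
    rw [h1]
    push_cast
    positivity
  sets_of_superset := by
    intro S T hS hST ε hε
    filter_upwards [hS ε hε] with x hx
    refine le_trans ?_ hx
    have h1 := count_le_add Tᶜ Sᶜ ∅ (by
      rw [Set.union_empty]
      exact Set.compl_subset_compl.2 hST) x
    have h2 := count_finite (∅ : Set (Places K)) Set.finite_empty x
    rw [Set.ncard_empty] at h2
    exact_mod_cast (by omega : count Tᶜ x ≤ count Sᶜ x)
  inter_sets := by
    intro S T hS hT ε hε
    filter_upwards [hS (ε / 2) (by positivity), hT (ε / 2) (by positivity)] with x h1 h2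
    have h3 := count_le_add (S ∩ T)ᶜ Sᶜ Tᶜ (by rw [Set.compl_inter]) x
    have h4 : (count (S ∩ T)ᶜ x : ℝ) ≤ count Sᶜ x + count Tᶜ x := by exact_mod_cast h3
    linarith

theorem densityOne_le : densityOne K ≤ cofinite := by
  intro S hS ε hε
  have hfin : Sᶜ.Finite := Filter.mem_cofinite.1 hS
  obtain ⟨N, hN⟩ := exists_nat_ge ((Sᶜ.ncard : ℝ) / ε)
  filter_upwards [count_univ_large (K := K) N] with x hx
  have h1 := count_finite Sᶜ hfin x
  have h2 : (N : ℝ) ≤ count (Set.univ : Set (Places K)) x := by exact_mod_cast hx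
  have h3 : (Sᶜ.ncard : ℝ) ≤ count (Set.univ : Set (Places K)) x * ε :=
    (div_le_iff₀ hε).1 (hN.trans h2)
  have h4 : (count Sᶜ x : ℝ) ≤ Sᶜ.ncard := by exact_mod_cast h1
  linarith

theorem positive_of_densityOne {S : Set (Places K)} (hS : S ∈ densityOne K) : PositiveDensity S := by
  refine ⟨1 / 2, by norm_num, ?_⟩
  filter_upwards [hS (1 / 2) (by norm_num)] with x h1
  have h2 := count_le_add (Set.univ : Set (Places K)) S Sᶜ (by rw [Set.union_compl_self]) x
  have h3 : (count (Set.univ : Set (Places K)) x : ℝ) ≤ count S x + count Sᶜ x := by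
    exact_mod_cast h2
  linarith

end

/-- The filter of the sets of closed points of `Spec A` which contain all closed points of a nonempty open set. -/
def almostAll (A : Type) [CommRing A] [IsDomain A] : Filter (MaximalSpectrum A) where
  sets := {U | ∃ a : A, a ≠ 0 ∧ ∀ s : MaximalSpectrum A, a ∉ s.asIdeal → s ∈ U}
  univ_sets := ⟨1, one_ne_zero, fun _ _ => trivial⟩
  sets_of_superset := fun ⟨a, h, h'⟩ hUV => ⟨a, h, fun s hs => hUV (h' s hs)⟩
  inter_sets := fun ⟨a, h, h'⟩ ⟨b, g, g'⟩ => ⟨a * b, mul_ne_zero h g, fun s hs =>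
    ⟨h' s fun hm => hs (Ideal.mul_mem_right _ _ hm), g' s fun hm => hs (Ideal.mul_mem_left _ _ hm)⟩⟩

/-- The set `S` of closed points is dense in `Spec A`. -/
def IsDenseSet {A : Type} [CommRing A] (S : Set (MaximalSpectrum A)) : Prop :=
  ∀ a : A, a ≠ 0 → ∃ s ∈ S, a ∉ s.asIdeal

theorem IsDenseSet.mono {A : Type} [CommRing A] [IsDomain A] {S T : Set (MaximalSpectrum A)}
    (hS : IsDenseSet S) (h : ∀ᶠ s in almostAll A, s ∈ S → s ∈ T) : IsDenseSet T := by
  intro a ha
  obtain ⟨b, hb, hb'⟩ := h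
  obtain ⟨s, hs, hs'⟩ := hS (a * b) (mul_ne_zero ha hb)
  exact ⟨s, hb' s (fun hm => hs' (Ideal.mul_mem_left _ _ hm)) hs,
    fun hm => hs' (Ideal.mul_mem_right _ _ hm)⟩

end Pool.Agent.U483.KO
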