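import Pool.Agent.U483.KP.Defs

/-!
# Ordinary motives: definitions

`𝓜` is the category of the pure motives over a field `k` for absolute Hodge cycles and `Pl` is a set of places:
the finite places of a number field `k`, or the closed points `s` of `Spec A` for a finitely generated domain `A` with
fraction field `k` (then a lift `Spec W(k(s)) ⟶ Spec A` is chosen, if `A` is smooth over `ℤ` at `s`). At a place a motive has a
`p`-adic realization. If it is crystalline there are the slopes of Frobenius and the Hodge-Tate weights.
-/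

set_option autoImplicit false

open CategoryTheory CategoryTheory.Limits AlgebraicGeometry MonoidalCategory Filter
  Pool.Agent.Y116.UV Pool.Agent.U483.KM Pool.Agent.U483.GU Pool.Agent.U483.KP

namespace Pool.Agent.U483.KO

universe w x

/-- The sum of `max (t - s) 0` over the members `s` of `M`. -/
def ramp (t : ℚ) (M : Multiset ℚ) : ℚ := (M.map fun s => max (t - s) 0).sum

/-- The convex polygon with the slopes `N` lies on or above the convex polygon with the slopes `H`, and both
have the same end point (in terms of the convex dual functions). -/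
def Above (N H : Multiset ℚ) : Prop :=
  N.card = H.card ∧ N.sum = H.sum ∧ ∀ t : ℚ, ramp t N ≤ ramp t H

/-- The sums of a member of `M` and a member of `N` (slopes of a tensor product). -/
def sums (M N : Multiset ℚ) : Multiset ℚ := M.bind fun s => N.map fun t => s + t

/-- Crystalline motives, slopes of Frobenius and Hodge-Tate weights at the places `v`, with the known
properties (Fontaine; `mazur`: weak admissibility). -/
structure Slopes (𝓜 : Type w) [Category.{x} 𝓜] [Abelian 𝓜] [MonoidalCategory 𝓜] (Pl : Type) where
  /-- the `p`-adic realization is crystalline at `v` -/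
  crys : Pl → 𝓜 → Prop
  /-- the slopes of the crystalline Frobenius at `v` -/
  newton : Pl → 𝓜 → Multiset ℚ
  /-- the Hodge-Tate weights at `v` -/
  hodge : Pl → 𝓜 → Multiset ℚ
  iso : ∀ (v : Pl) (A B : 𝓜), Nonempty (A ≅ B) → newton v A = newton v B ∧ hodge v A = hodge v B
  zero : ∀ (v : Pl) (A : 𝓜), IsZero A → crys v A ∧ newton v A = 0 ∧ hodge v A = 0
  retract : ∀ (v : Pl) {A B : 𝓜} (s : A ⟶ B) (r : B ⟶ A), s ≫ r = 𝟙 A → crys v B → crys v A
  sum : ∀ (v : Pl) (A B : 𝓜), crys v A → crys v B → crys v (A ⊞ B) ∧
    newton v (A ⊞ B) = newton v A + newton v B ∧ hodge v (A ⊞ B) = hodge v A + hodge v B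
  tensor : ∀ (v : Pl) (A B : 𝓜), crys v A → crys v B → crys v (A ⊗ B) ∧
    newton v (A ⊗ B) = sums (newton v A) (newton v B) ∧
    hodge v (A ⊗ B) = sums (hodge v A) (hodge v B)
  mazur : ∀ (v : Pl) (A : 𝓜), crys v A → Above (newton v A) (hodge v A)

/-- The motive `A` is ordinary at `v`: crystalline, and the Newton polygon is the Hodge polygon. -/
def Slopes.Ord {𝓜 : Type w} [Category.{x} 𝓜] [Abelian 𝓜] [MonoidalCategory 𝓜] {Pl : Type}
    (S : Slopes.{w, x} 𝓜 Pl) (v : Pl) (A : 𝓜) : Prop := S.crys v A ∧ S.newton v A = S.hodge v A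

/-- `ord v X` means that the smooth projective scheme `X` has good ordinary reduction at `v` (Bloch and Kato); it means
that the motives `h^i(X)` are ordinary at `v`, for almost all `v` (Bloch and Kato). The filter `E` gives the meaning of
'almost all'. Lefschetz motive (`L`) and Artin motives are ordinary at almost all `v`. -/
structure IsOrdinaryReduction {k : Type} [Field k] {𝓜 : Type w} [Category.{x} 𝓜] [Abelian 𝓜]
    [Linear ℚ 𝓜] [MonoidalCategory 𝓜] (H : CompactCoh.{w, x} k 𝓜) (L : 𝓜) {Pl : Type}
    (S : Slopes.{w, x} 𝓜 Pl) (E : Filter Pl) (ord : Pl → Sch k → Prop) : Prop where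
  bk : ∀ X : Sch k, SmoothProjective X → ∀ᶠ v in E, (ord v X ↔ ∀ i : ℤ, S.Ord v (H.h i i X))
  lefschetz : ∀ᶠ v in E, S.Ord v L
  artin : ∀ X : Sch k, FT True X → topologicalKrullDim X.left ≤ 0 → ∀ i w : ℤ,
    ∀ᶠ v in E, S.Ord v (H.h i w X)

/-- The smooth projective schemes with good ordinary reduction at all `v` in a member of the filter `F`. -/
def Good {k : Type} [Field k] {Pl : Type} (ord : Pl → Sch k → Prop) (F : Filter Pl) (Y : Sch k) :
    Prop := SmoothProjective Y ∧ ∀ᶠ v in F, ord v Y

/-- The subgroup of `K_0(Var_k)` generated by the classes of the schemes in `Built k B 0`: they are built from `B`,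
the schemes of dimension zero and binomial schemes by products, complements, unions, finite images. -/
def ring {k : Type} [Field k] (B : Sch k → Prop) : AddSubgroup (K0 k) :=
  AddSubgroup.closure {c | ∃ Y : Var k, Built k B 0 Y.1 ∧ c = cls Y}

section

variable {k : Type} [Field k] {Pl : Type} (ord : Pl → Sch k → Prop) (E : Filter Pl)

/-- For all filters `F` below `E`: a smooth projective `X` is ordinary at all `v` in a member of `F` if and only
if a multiple of its class is in the ring built from the smooth projective schemes with this property. -/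
def Criterion : Prop :=
  ∀ F : Filter Pl, F ≤ E → ∀ X : Var k, SmoothProjective X.1 → ∀ n : ℤ, n ≠ 0 →
    ((∀ᶠ v in F, ord v X.1) ↔ n • cls X ∈ ring (Good ord F))

/-- If moreover all members of `F` have the property `Big` then the set of the ordinary `v` has it. -/
def BigOrdinary (Big : Set Pl → Prop) : Prop :=
  ∀ F : Filter Pl, F ≤ E → (∀ T ∈ F, Big T) → ∀ X : Var k, SmoothProjective X.1 → ∀ n : ℤ, n ≠ 0 →
    n • cls X ∈ ring (Good ord F) → Big {v | ord v X.1}

/-- If a multiple of the class of `X` is in the ring built from one smooth projective `Y` then `X` is ordinary at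
almost all `v` at which `Y` is ordinary, and the set of the ordinary `v` is `Big` for `X` if it is `Big` for `Y`. -/
def OneScheme (Big : Set Pl → Prop) : Prop :=
  ∀ (X : Var k) (Y : Sch k), SmoothProjective X.1 → SmoothProjective Y → ∀ n : ℤ, n ≠ 0 →
    (n • cls X ∈ ring fun Z : Sch k => Z = Y) → (∀ᶠ v in E, ord v Y → ord v X.1) ∧
      (Big {v | ord v Y} → Big {v | ord v X.1})

/-- If `n [X] = n [X']` then `X` and `X'` are ordinary at the same `v`, for almost all `v`. -/
def Invariance (Big : Set Pl → Prop) : Prop :=
  ∀ X X' : Var k, SmoothProjective X.1 → SmoothProjective X'.1 → ∀ n : ℤ, n ≠ 0 →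
    n • cls X = n • cls X' → (∀ᶠ v in E, (ord v X.1 ↔ ord v X'.1)) ∧
      (Big {v | ord v X.1} ↔ Big {v | ord v X'.1})

end

end Pool.Agent.U483.KO
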