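import Pool.Agent.U483.KO.Defs
import Pool.Agent.U483.KP.Main
import Pool.Agent.U483.KP.Iso

/-!
# Ordinary motives and the Grothendieck ring of varieties
-/

set_option autoImplicit false

open CategoryTheory CategoryTheory.Limits AlgebraicGeometry MonoidalCategory Filter Module
  Pool.Agent.Y116.UV Pool.Agent.U483.KM Pool.Agent.U483.GU Pool.Agent.U483.KP

namespace Pool.Agent.U483.KO

universe w x

lemma ramp_add (t : ℚ) (M N : Multiset ℚ) : ramp t (M + N) = ramp t M + ramp t N := by
  simp [ramp]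

lemma ramp_cons (t s : ℚ) (M : Multiset ℚ) : ramp t (s ::ₘ M) = max (t - s) 0 + ramp t M := by
  simp [ramp]

lemma ramp_nonneg (t : ℚ) (M : Multiset ℚ) : 0 ≤ ramp t M := by
  refine Multiset.sum_nonneg fun y hy => ?_
  obtain ⟨s, _, rfl⟩ := Multiset.mem_map.1 hy
  exact le_max_right _ _

lemma ramp_zero (t : ℚ) (M : Multiset ℚ) (h : ∀ s ∈ M, t ≤ s) : ramp t M = 0 := by
  refine Multiset.sum_eq_zero fun y hy => ?_
  obtain ⟨s, hs, rfl⟩ := Multiset.mem_map.1 hy
  exact max_eq_right (sub_nonpos.2 (h s hs))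

lemma ramp_pos {t s : ℚ} {M : Multiset ℚ} (hs : s ∈ M) (h : s < t) : 0 < ramp t M := by
  obtain ⟨M', rfl⟩ := Multiset.exists_cons_of_mem hs
  rw [ramp_cons]
  have h1 : 0 < max (t - s) 0 := lt_max_of_lt_left (sub_pos.2 h)
  have := ramp_nonneg t M'
  linarith

lemma exists_between' (m : ℚ) (N : Multiset ℚ) (h : ∀ s ∈ N, m < s) : ∃ t, m < t ∧ ∀ s ∈ N, t ≤ s := by
  induction N using Multiset.induction_on with
  | empty => exact ⟨m + 1, by linarith, fun s hs => absurd hs (Multiset.notMem_zero s)⟩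
  | cons a N ih =>
    obtain ⟨t, ht, ht'⟩ := ih fun s hs => h s (Multiset.mem_cons_of_mem hs)
    refine ⟨min t a, lt_min ht (h a (Multiset.mem_cons_self a N)), fun s hs => ?_⟩
    rcases Multiset.mem_cons.1 hs with rfl | hs
    · exact min_le_right _ _
    · exact (min_le_left _ _).trans (ht' s hs)

lemma exists_min' (M : Multiset ℚ) (h : M ≠ 0) : ∃ m ∈ M, ∀ s ∈ M, m ≤ s := by
  induction M using Multiset.induction_on with
  | empty => exact absurd rfl h
  | cons a M ih =>
    by_cases hM : M = 0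
    · subst hM
      exact ⟨a, by simp, by simp⟩
    · obtain ⟨m, hm, hm'⟩ := ih hM
      rcases le_total a m with hle | hle
      · refine ⟨a, Multiset.mem_cons_self a M, fun s hs => ?_⟩
        rcases Multiset.mem_cons.1 hs with rfl | hs
        · exact le_rfl
        · exact hle.trans (hm' s hs)
      · refine ⟨m, Multiset.mem_cons_of_mem hm, fun s hs => ?_⟩
        rcases Multiset.mem_cons.1 hs with rfl | hs
        · exact hle
        · exact hm' s hs

lemma ramp_inj : ∀ (n : ℕ) (M N : Multiset ℚ), M.card + N.card ≤ n → (∀ t, ramp t M = ramp t N) →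
    M = N := by
  intro n
  induction n with
  | zero =>
    intro M N hc _
    rw [Multiset.card_eq_zero.1 (by omega : M.card = 0), Multiset.card_eq_zero.1 (by omega : N.card = 0)]
  | succ n ih =>
    -- one of the two multisets contains the least element
    have key : ∀ M N : Multiset ℚ, M.card + N.card ≤ n + 1 → (∀ t, ramp t M = ramp t N) → ∀ m ∈ M,
        (∀ s ∈ N, m ≤ s) → M = N := by
      intro M N hc h m hm hN
      by_cases hmN : m ∈ N
      · obtain ⟨M', rfl⟩ := Multiset.exists_cons_of_mem hm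
        obtain ⟨N', rfl⟩ := Multiset.exists_cons_of_mem hmN
        rw [ih M' N' (by simp only [Multiset.card_cons] at hc; omega) fun t => by
          have := h t
          rw [ramp_cons, ramp_cons] at this
          linarith]
      · obtain ⟨t, ht, ht'⟩ := exists_between' m N fun s hs =>
          lt_of_le_of_ne (hN s hs) fun e => hmN (e ▸ hs)
        have h1 := ramp_pos hm ht
        rw [h t, ramp_zero t N ht'] at h1
        exact absurd h1 (lt_irrefl _)
    intro M N hc h
    by_cases hM : M + N = 0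
    · have h1 : M.card + N.card = 0 := by rw [← Multiset.card_add, hM, Multiset.card_zero]
      rw [Multiset.card_eq_zero.1 (by omega : M.card = 0),
        Multiset.card_eq_zero.1 (by omega : N.card = 0)]
    · obtain ⟨m, hm, hm'⟩ := exists_min' (M + N) hM
      rcases Multiset.mem_add.1 hm with hm | hm
      · exact key M N hc h m hm fun s hs => hm' s (Multiset.mem_add.2 (Or.inr hs))
      · exact (key N M (by omega) (fun t => (h t).symm) m hm fun s hs =>
          hm' s (Multiset.mem_add.2 (Or.inl hs))).symm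

/-- Two pairs of polygons: if the sums of the Newton and Hodge slopes are equal then each pair is equal. -/
theorem eq_of_add {N N' H H' : Multiset ℚ} (h : Above N H) (h' : Above N' H') (e : N + N' = H + H') :
    N = H := by
  refine ramp_inj _ N H le_rfl fun t => le_antisymm (h.2.2 t) ?_
  have h1 := congrArg (ramp t) e
  rw [ramp_add, ramp_add] at h1
  have := h'.2.2 t
  linarith

section

variable {k : Type} [Field k] {𝓜 : Type w} [Category.{x} 𝓜] [Abelian 𝓜] [Linear ℚ 𝓜]
  [MonoidalCategory 𝓜] {Pl : Type} (S : Slopes.{w, x} 𝓜 Pl)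

/-- The ordinary motives at the place `v` are closed under sums, direct factors and tensor products. -/
theorem ord_thick (h𝓜 : IsSemisimple 𝓜) (v : Pl) : IsTensorThick (S.Ord v) where
  zero A h := by
    obtain ⟨h1, h2, h3⟩ := S.zero v A h
    exact ⟨h1, h2.trans h3.symm⟩
  retract {A B} s r h hB := by
    obtain ⟨A', ⟨e⟩⟩ := complement h𝓜 s r h
    have hA := S.retract v s r h hB.1
    have hA' : S.crys v A' := S.retract v (biprod.inr ≫ e.inv) (e.hom ≫ biprod.snd) (by simp) hB.1
    obtain ⟨_, h2, h3⟩ := S.sum v A A' hA hA'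
    obtain ⟨h4, h5⟩ := S.iso v B _ ⟨e⟩
    refine ⟨hA, eq_of_add (S.mazur v A hA) (S.mazur v A' hA') ?_⟩
    rw [← h2, ← h3, ← h4, ← h5, hB.2]
  sum A B hA hB := by
    obtain ⟨h1, h2, h3⟩ := S.sum v A B hA.1 hB.1
    exact ⟨h1, by rw [h2, h3, hA.2, hB.2]⟩
  tensor A B hA hB := by
    obtain ⟨h1, h2, h3⟩ := S.tensor v A B hA.1 hB.1
    exact ⟨h1, by rw [h2, h3, hA.2, hB.2]⟩

theorem ord_thick_filter (h𝓜 : IsSemisimple 𝓜) (F : Filter Pl) :
    IsTensorThick (fun A => ∀ᶠ v in F, S.Ord v A) where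
  zero A h := Eventually.of_forall fun v => (ord_thick S h𝓜 v).zero A h
  retract s r h hB := hB.mono fun v hv => (ord_thick S h𝓜 v).retract s r h hv
  sum A B hA hB := by
    filter_upwards [hA, hB] with v h1 h2 using (ord_thick S h𝓜 v).sum A B h1 h2
  tensor A B hA hB := by
    filter_upwards [hA, hB] with v h1 h2 using (ord_thick S h𝓜 v).tensor A B h1 h2

end

section

variable {k : Type} [Field k] {𝓜 : Type w} [Category.{x} 𝓜] [Abelian 𝓜] [Linear ℚ 𝓜]
  (H : CompactCoh.{w, x} k 𝓜) {P : 𝓜 → Prop}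

theorem piece_of_mul_mem (hP : IsThick P) {X : Var k} (hX : SmoothProjective X.1) {n : ℤ}
    (hn : n ≠ 0)
    (h : n • cls X ∈ AddSubgroup.closure {c | ∃ Y : Var k, H.In P Y.1 ∧ c = cls Y}) :
    H.In P X.1 := by
  intro i w
  by_cases hiw : i = w
  swap
  · exact hP.zero _ (H.pure X.1 hX i w hiw)
  subst hiw
  by_contra hbad
  obtain ⟨S, s, r, hsr, hS, hS'⟩ := exists_bad H.semisimple (hP.good H.semisimple) _
    (H.h i i X.1) le_rfl hbad
  have hle : AddSubgroup.closure {c | ∃ Y : Var k, H.In P Y.1 ∧ c = cls Y} ≤ (mu H i S).ker := by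
    rw [AddSubgroup.closure_le]
    rintro c ⟨Y, hY, rfl⟩
    change mu H i S (cls Y) = 0
    rw [mu_cls, eul]
    refine finsum_eq_zero_of_forall_eq_zero fun n => ?_
    have hsub : Subsingleton (S ⟶ H.h n i Y.1) :=
      ⟨fun f g => by rw [hS' _ (hY n i) f, hS' _ (hY n i) g]⟩
    rw [finrank_zero_of_subsingleton, Nat.cast_zero, mul_zero]
  have h00 : mu H i S (n • cls X) = 0 := hle h
  rw [map_zsmul, smul_eq_mul] at h00
  have h0 : mu H i S (cls X) = 0 := (mul_eq_zero.1 h00).resolve_left hn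
  rw [mu_cls, eul, finsum_eq_single _ i] at h0
  · have h1 : finrank ℚ (S ⟶ H.h i i X.1) = 0 := by
      rcases mul_eq_zero.1 h0 with h2 | h2
      · exact absurd h2 (Units.ne_zero _)
      · exact_mod_cast h2
    have := H.semisimple.finite S (H.h i i X.1)
    have h2 : Subsingleton (S ⟶ H.h i i X.1) := finrank_zero_iff.1 h1
    have h3 : 𝟙 S = 0 := by rw [← hsr, Subsingleton.elim s 0, zero_comp]
    exact hS (hP.zero S ((IsZero.iff_id_eq_zero S).2 h3))
  · intro m hm
    rw [finrank_zero_of_isZero S (H.pure X.1 hX m i hm), Nat.cast_zero, mul_zero]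

end

section

variable {k : Type} [Field k] {𝓜 : Type w} [Category.{x} 𝓜] [Abelian 𝓜] [Linear ℚ 𝓜]
  [MonoidalCategory 𝓜] {Pl : Type} {S : Slopes.{w, x} 𝓜 Pl} {H : CompactCoh.{w, x} k 𝓜} {L : 𝓜}
  {E : Filter Pl} {ord : Pl → Sch k → Prop}

lemma in_iff_ord (hO : IsOrdinaryReduction H L S E ord) {F : Filter Pl} (hF : F ≤ E) {X : Sch k}
    (hX : SmoothProjective X) :
    H.In (fun A => ∀ᶠ v in F, S.Ord v A) X ↔ ∀ᶠ v in F, ord v X := by
  have hT : ∀ v, IsTensorThick (S.Ord v) := ord_thick S H.semisimple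
  constructor
  · intro h
    obtain ⟨n, hn⟩ := H.bounded X hX.ft
    have h1 : ∀ᶠ v in F, ∀ i ∈ Finset.Icc (0 : ℤ) n, S.Ord v (H.h i i X) := by
      rw [Filter.eventually_all_finset]
      exact fun i _ => h i i
    filter_upwards [h1, hF (hO.bk X hX)] with v h2 h3
    refine h3.2 fun i => ?_
    by_cases hi : i ∈ Finset.Icc (0 : ℤ) n
    · exact h2 i hi
    · refine (hT v).zero _ (hn i i ?_)
      rw [Finset.mem_Icc] at hi
      omega
  · intro h i w
    by_cases hiw : i = w
    · subst hiw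
      filter_upwards [h, hF (hO.bk X hX)] with v h2 h3 using h3.1 h2 i
    · exact Eventually.of_forall fun v => (hT v).zero _ (H.pure X hX i w hiw)

lemma mem_ring {k : Type} [Field k] {B : Sch k → Prop} {X : Var k} (h : Built k B 0 X.1) :
    cls X ∈ ring B :=
  AddSubgroup.subset_closure ⟨X, h, rfl⟩

/-- The main theorem. -/
theorem criterion (hH : IsMultiplicative H L) (hO : IsOrdinaryReduction H L S E ord) {F : Filter Pl}
    (hF : F ≤ E) {X : Var k} (hX : SmoothProjective X.1) {n : ℤ} (hn : n ≠ 0) :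
    (∀ᶠ v in F, ord v X.1) ↔ n • cls X ∈ ring (Good ord F) := by
  constructor
  · intro h
    have h1 : Built k (Good ord F) 0 X.1 := Built.base X.1 hX.ft ⟨hX, h⟩
    exact AddSubgroup.zsmul_mem _ (mem_ring h1) n
  · intro h
    refine (in_iff_ord hO hF hX).1 (piece_of_mul_mem H (ord_thick_filter S H.semisimple F).toIsThick
      hX hn (AddSubgroup.closure_mono ?_ h))
    rintro c ⟨Y, hY, rfl⟩
    refine ⟨Y, (in_built hH (ord_thick_filter S H.semisimple F) (hF hO.lefschetz) ?_ ?_ hY).2, rfl⟩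
    · intro Z _ hZ
      exact (in_iff_ord hO hF hZ.1).2 hZ.2
    · intro Z hZ hd i w
      exact hF (hO.artin Z hZ (by simpa using hd) i w)

/-- Comparison of two schemes. -/
theorem compare (hH : IsMultiplicative H L) (hO : IsOrdinaryReduction H L S E ord) {X : Var k}
    {Y : Sch k} (hX : SmoothProjective X.1) (hY : SmoothProjective Y) {n : ℤ} (hn : n ≠ 0)
    (h : n • cls X ∈ ring fun Z : Sch k => Z = Y) : ∀ᶠ v in E, ord v Y → ord v X.1 := by
  have h1 : ∀ᶠ v in E ⊓ 𝓟 {v | ord v Y}, ord v X.1 := by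
    refine (criterion hH hO inf_le_left hX hn).2 (AddSubgroup.closure_mono ?_ h)
    rintro c ⟨Z, hZ, rfl⟩
    refine ⟨Z, ?_, rfl⟩
    have mono : ∀ {B B' : Sch k → Prop}, (∀ W, B W → B' W) → ∀ {W : Sch k}, Built k B 0 W →
        Built k B' 0 W := by
      intro B B' hB W hW
      induction hW with
      | base X h1 h2 => exact Built.base X h1 (hB X h2)
      | dim X h1 h2 => exact Built.dim X h1 h2
      | sparse n G h => exact Built.sparse n G h
      | prod p r h1 h2 _ _ i1 i2 => exact Built.prod p r h1 h2 i1 i2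
      | cover π h _ i1 => exact Built.cover π h i1
      | total i j h1 h2 _ _ i1 i2 => exact Built.total i j h1 h2 i1 i2
      | opened i j h1 h2 _ _ i1 i2 => exact Built.opened i j h1 h2 i1 i2
      | closed i j h1 h2 _ _ i1 i2 => exact Built.closed i j h1 h2 i1 i2
    refine mono ?_ hZ
    rintro W rfl
    refine ⟨hY, ?_⟩
    rw [Filter.eventually_inf_principal]
    exact Eventually.of_forall fun v hv => hv
  rw [Filter.eventually_inf_principal] at h1
  exact h1

/-- Invariance. -/
theorem invariance (hH : IsMultiplicative H L) (hO : IsOrdinaryReduction H L S E ord) {X X' : Var k}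
    (hX : SmoothProjective X.1) (hX' : SmoothProjective X'.1) {n : ℤ} (hn : n ≠ 0)
    (h : n • cls X = n • cls X') : ∀ᶠ v in E, (ord v X.1 ↔ ord v X'.1) := by
  have key : ∀ {X X' : Var k}, SmoothProjective X.1 → SmoothProjective X'.1 →
      n • cls X = n • cls X' → ∀ᶠ v in E, ord v X'.1 → ord v X.1 := by
    intro X X' hX hX' h
    refine compare hH hO hX hX' hn ?_
    rw [h]
    have h1 : Built k (fun Z : Sch k => Z = X'.1) 0 X'.1 := Built.base X'.1 hX'.ft rfl
    exact AddSubgroup.zsmul_mem _ (mem_ring h1) n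
  filter_upwards [key hX hX' h, key hX' hX h.symm] with v h1 h2 using ⟨h2, h1⟩

/-- All four statements. -/
theorem main (hH : IsMultiplicative H L) (hO : IsOrdinaryReduction H L S E ord) (Big : Set Pl → Prop)
    (hBig : ∀ T T' : Set Pl, (∀ᶠ v in E, v ∈ T → v ∈ T') → Big T → Big T') :
    Criterion ord E ∧ BigOrdinary ord E Big ∧ OneScheme ord E Big ∧ Invariance ord E Big := by
  refine ⟨fun F hF X hX n hn => criterion hH hO hF hX hn, fun F hF hpos X hX n hn h =>
    hpos _ ((criterion hH hO hF hX hn).2 h), fun X Y hX hY n hn h => ?_,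
    fun X X' hX hX' n hn h => ?_⟩
  · have h1 := compare hH hO hX hY hn h
    exact ⟨h1, hBig _ _ h1⟩
  · have h1 := invariance hH hO hX hX' hn h
    exact ⟨h1, hBig _ _ (h1.mono fun s hs => hs.1), hBig _ _ (h1.mono fun s hs => hs.2)⟩

end

end Pool.Agent.U483.KO
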